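import Pool.Agent.Helper12.RQ.Goals

/-!
# MP_a2585e_an, packet POL: polarisation does not increase the energy
-/

set_option autoImplicit false

open MeasureTheory Set Filter Topology Metric

open scoped ENNReal NNReal ContDiff RealInnerProductSpace

namespace Pool.Agent.Helper67.RQ

open Pool.Agent.Helper12.RQ

variable {n : ℕ}

theorem refl_def (a ν y : E n) : refl a ν y = y - (2 * ⟪y - a, ν⟫) • ν := rfl

/-- the linear part of the reflection -/
noncomputable def lin (ν : E n) : E n ≃ₗᵢ[ℝ] E n := (ℝ ∙ ν)ᗮ.reflection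

theorem lin_apply {ν : E n} (hν : ‖ν‖ = 1) (w : E n) : lin ν w = w - (2 * ⟪w, ν⟫) • ν := by
  rw [lin, Submodule.reflection_orthogonal_apply, Submodule.reflection_singleton_apply, hν]
  rw [neg_sub, real_inner_comm]
  simp [two_smul, mul_smul]

theorem refl_eq (a : E n) {ν : E n} (hν : ‖ν‖ = 1) (y : E n) :
    refl a ν y = lin ν y + (a - lin ν a) := by
  rw [refl_def, lin_apply hν, lin_apply hν, inner_sub_left, mul_sub, sub_smul]
  abel

theorem inner_refl (a : E n) {ν : E n} (hν : ‖ν‖ = 1) (y : E n) :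
    ⟪refl a ν y - a, ν⟫ = -⟪y - a, ν⟫ := by
  have h : refl a ν y - a = (y - a) - (2 * ⟪y - a, ν⟫) • ν := by
    rw [refl_def]; abel
  rw [h, inner_sub_left, real_inner_smul_left, real_inner_self_eq_norm_sq, hν]
  ring

theorem refl_refl (a : E n) {ν : E n} (hν : ‖ν‖ = 1) (y : E n) :
    refl a ν (refl a ν y) = y := by
  have h := inner_refl a hν y
  rw [refl_def a ν (refl a ν y), h, refl_def, mul_neg, neg_smul]
  abel

theorem refl_fix (a ν y : E n) (hy : ⟪y - a, ν⟫ = 0) : refl a ν y = y := by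
  rw [refl_def, hy]; simp

theorem isometry_refl (a : E n) {ν : E n} (hν : ‖ν‖ = 1) : Isometry (refl a ν) := by
  have : refl a ν = fun y => lin ν y + (a - lin ν a) := funext fun y => refl_eq a hν y
  rw [this]
  exact (isometry_add_right _).comp (lin ν).isometry

theorem measurePreserving_refl (a : E n) {ν : E n} (hν : ‖ν‖ = 1) :
    MeasurePreserving (refl a ν) (volume : Measure (E n)) volume := by
  have : refl a ν = (fun y => y + (a - lin ν a)) ∘ lin ν := funext fun y => refl_eq a hν y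
  rw [this]
  exact (measurePreserving_add_right volume _).comp (lin ν).measurePreserving

theorem fderiv_refl (a : E n) {ν : E n} (hν : ‖ν‖ = 1) (f : E n → ℝ) (y : E n) :
    ‖fderiv ℝ (fun z => f (refl a ν z)) y‖ₑ = ‖fderiv ℝ f (refl a ν y)‖ₑ := by
  have h1 : (fun z => f (refl a ν z)) =
      (fun x => f (x + (a - lin ν a))) ∘ (lin ν).toContinuousLinearEquiv := by
    funext z
    simp only [Function.comp, refl_eq a hν]
    rfl
  rw [h1, ContinuousLinearEquiv.comp_right_fderiv, fderiv_comp_add_right]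
  have h2 : (lin ν).toContinuousLinearEquiv y + (a - lin ν a) = refl a ν y := by
    rw [refl_eq a hν]; rfl
  rw [h2]
  have h3 := ContinuousLinearMap.opNorm_comp_linearIsometryEquiv (fderiv ℝ f (refl a ν y)) (lin ν)
  rw [← ofReal_norm, ← ofReal_norm]
  congr 1

theorem volume_hyperplane (a : E n) {ν : E n} (hν : ‖ν‖ = 1) :
    volume {y : E n | ⟪y - a, ν⟫ = 0} = 0 := by
  have h1 : {y : E n | ⟪y - a, ν⟫ = 0} = (AffineSubspace.mk' a (ℝ ∙ ν)ᗮ : Set (E n)) := by
    ext y
    simp only [mem_ofPred_eq, SetLike.mem_coe, AffineSubspace.mem_mk', vsub_eq_sub,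
      Submodule.mem_orthogonal_singleton_iff_inner_left]
  rw [h1]
  refine Measure.addHaar_affineSubspace _ _ fun h => ?_
  have h2 : a + ν ∈ AffineSubspace.mk' a (ℝ ∙ ν)ᗮ := by rw [h]; trivial
  rw [AffineSubspace.mem_mk', vsub_eq_sub, Submodule.mem_orthogonal_singleton_iff_inner_left,
    add_sub_cancel_left, real_inner_self_eq_norm_sq, hν] at h2
  norm_num at h2

theorem lip_pol (a : E n) {ν : E n} (hν : ‖ν‖ = 1) (u : E n → ℝ) (C : ℝ≥0)
    (hu : LipschitzWith C u) : LipschitzWith C (pol a ν u) := by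
  have hv : LipschitzWith C (fun y => u (refl a ν y)) := by
    have := hu.comp (isometry_refl a hν).lipschitz
    rwa [mul_one] at this
  have hmax : LipschitzWith C (fun y => max (u y) (u (refl a ν y))) := by
    have := hu.max hv
    rwa [max_self] at this
  have hmin : LipschitzWith C (fun y => min (u y) (u (refl a ν y))) := by
    have := hu.min hv
    rwa [max_self] at this
  have key : ∀ y z : E n, 0 ≤ ⟪y - a, ν⟫ → ¬ 0 ≤ ⟪z - a, ν⟫ →
      dist (pol a ν u y) (pol a ν u z) ≤ C * dist y z := by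
    intro y z hy hz
    have hz' := not_le.1 hz
    set τ : ℝ := ⟪y - a, ν⟫ / (⟪y - a, ν⟫ - ⟪z - a, ν⟫) with hτ
    have hden : 0 < ⟪y - a, ν⟫ - ⟪z - a, ν⟫ := by linarith
    have hτ0 : 0 ≤ τ := div_nonneg hy hden.le
    have hτ1 : τ ≤ 1 := by
      rw [hτ, div_le_one hden]
      linarith
    set q : E n := AffineMap.lineMap y z τ with hq
    have hqseg : q ∈ segment ℝ y z := by
      rw [segment_eq_image_lineMap]
      exact ⟨τ, ⟨hτ0, hτ1⟩, rfl⟩
    have hq0 : ⟪q - a, ν⟫ = 0 := by
      have h1 : q - a = (1 - τ) • (y - a) + τ • (z - a) := by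
        rw [hq, AffineMap.lineMap_apply_module]
        module
      rw [h1, inner_add_left, real_inner_smul_left, real_inner_smul_left]
      have h2 : τ * (⟪y - a, ν⟫ - ⟪z - a, ν⟫) = ⟪y - a, ν⟫ := by
        rw [hτ]; field_simp
      linarith
    have hrq := refl_fix a ν q hq0
    have e1 : pol a ν u y = max (u y) (u (refl a ν y)) := if_pos hy
    have e2 : pol a ν u z = min (u z) (u (refl a ν z)) := if_neg hz
    have h1 := hmax.dist_le_mul y q
    have h2 := hmin.dist_le_mul q z
    simp only [hrq, max_self, min_self] at h1 h2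
    rw [e1, e2]
    calc dist (max (u y) (u (refl a ν y))) (min (u z) (u (refl a ν z)))
        ≤ dist (max (u y) (u (refl a ν y))) (u q) + dist (u q) (min (u z) (u (refl a ν z))) :=
          dist_triangle _ _ _
      _ ≤ C * dist y q + C * dist q z := add_le_add h1 h2
      _ = C * dist y z := by rw [← mul_add, dist_add_dist_of_mem_segment hqseg]
  refine LipschitzWith.of_dist_le_mul fun y z => ?_
  by_cases hy : 0 ≤ ⟪y - a, ν⟫ <;> by_cases hz : 0 ≤ ⟪z - a, ν⟫
  · have e1 : pol a ν u y = max (u y) (u (refl a ν y)) := if_pos hy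
    have e2 : pol a ν u z = max (u z) (u (refl a ν z)) := if_pos hz
    rw [e1, e2]
    exact hmax.dist_le_mul y z
  · exact key y z hy hz
  · rw [dist_comm, dist_comm y z]
    exact key z y hz hy
  · have e1 : pol a ν u y = min (u y) (u (refl a ν y)) := if_neg hy
    have e2 : pol a ν u z = min (u z) (u (refl a ν z)) := if_neg hz
    rw [e1, e2]
    exact hmin.dist_le_mul y z

theorem en_split (p : ℝ) (a : E n) {ν : E n} (hν : ‖ν‖ = 1) (g : E n → ℝ≥0∞) :
    ∫⁻ x, g x = (∫⁻ x in {y | 0 < ⟪y - a, ν⟫}, g x) + ∫⁻ x in {y | ⟪y - a, ν⟫ < 0}, g x := by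
  have hm : MeasurableSet {y : E n | 0 < ⟪y - a, ν⟫} := by
    have hc : Continuous fun y : E n => ⟪y - a, ν⟫ := by fun_prop
    exact (isOpen_lt continuous_const hc).measurableSet
  rw [← lintegral_add_compl g hm]
  congr 1
  refine setLIntegral_congr ?_
  have h0 := volume_hyperplane a hν
  rw [ae_eq_set]
  constructor
  · refine measure_mono_null (fun y hy => ?_) h0
    simp only [Set.mem_sdiff, mem_compl_iff, mem_ofPred_eq, not_lt] at hy
    exact le_antisymm hy.1 hy.2
  · refine measure_mono_null (fun y hy => ?_) h0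
    simp only [Set.mem_sdiff, mem_compl_iff, mem_ofPred_eq, not_lt] at hy
    exact absurd hy.1.le hy.2

theorem refl_lintegral (a : E n) {ν : E n} (hν : ‖ν‖ = 1) (g : E n → ℝ≥0∞) :
    ∫⁻ x in {y | ⟪y - a, ν⟫ < 0}, g x = ∫⁻ x in {y | 0 < ⟪y - a, ν⟫}, g (refl a ν x) := by
  have h1 : {y : E n | 0 < ⟪y - a, ν⟫} = refl a ν ⁻¹' {y : E n | ⟪y - a, ν⟫ < 0} := by
    ext y
    simp only [mem_ofPred_eq, mem_preimage, inner_refl a hν]
    rw [neg_lt_zero]
  rw [h1]
  exact ((measurePreserving_refl a hν).setLIntegral_comp_preimage_emb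
    (isometry_refl a hν).isClosedEmbedding.measurableEmbedding g _).symm

theorem pol_energy (h2 : StmtU2) : StmtPOL := by
  intro n p hp a ν hν u C hu
  refine ⟨lip_pol a hν u C hu, ?_⟩
  have hv : LipschitzWith C (fun y => u (refl a ν y)) := by
    have := hu.comp (isometry_refl a hν).lipschitz
    rwa [mul_one] at this
  have hc : Continuous fun y : E n => ⟪y - a, ν⟫ := by fun_prop
  have hO : IsOpen {y : E n | 0 < ⟪y - a, ν⟫} := isOpen_lt continuous_const hc
  have hO' : IsOpen {y : E n | ⟪y - a, ν⟫ < 0} := isOpen_lt hc continuous_const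
  set v : E n → ℝ := fun y => u (refl a ν y) with hvdef
  set O : Set (E n) := {y : E n | 0 < ⟪y - a, ν⟫} with hOdef
  set O' : Set (E n) := {y : E n | ⟪y - a, ν⟫ < 0} with hO'def
  have hmeas : ∀ f : E n → ℝ, Measurable fun x => ‖fderiv ℝ f x‖ₑ ^ p := fun f =>
    (measurable_fderiv ℝ f).enorm.pow_const p
  unfold en
  rw [en_split p a hν (fun x => ‖fderiv ℝ (pol a ν u) x‖ₑ ^ p),
    en_split p a hν (fun x => ‖fderiv ℝ u x‖ₑ ^ p)]
  have e1 : ∫⁻ x in O, ‖fderiv ℝ (pol a ν u) x‖ₑ ^ p =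
      ∫⁻ x in O, ‖fderiv ℝ (fun y => max (u y) (v y)) x‖ₑ ^ p := by
    refine setLIntegral_congr_fun hO.measurableSet fun x hx => ?_
    have : pol a ν u =ᶠ[𝓝 x] fun y => max (u y) (v y) := by
      filter_upwards [hO.mem_nhds hx] with y hy
      exact if_pos (le_of_lt hy)
    rw [this.fderiv_eq]
  have e2 : ∫⁻ x in O', ‖fderiv ℝ (pol a ν u) x‖ₑ ^ p =
      ∫⁻ x in O', ‖fderiv ℝ (fun y => min (u y) (v y)) x‖ₑ ^ p := by
    refine setLIntegral_congr_fun hO'.measurableSet fun x hx => ?_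
    have : pol a ν u =ᶠ[𝓝 x] fun y => min (u y) (v y) := by
      filter_upwards [hO'.mem_nhds hx] with y hy
      exact if_neg (not_le.2 hy)
    rw [this.fderiv_eq]
  have e3 : ∫⁻ x in O', ‖fderiv ℝ (fun y => min (u y) (v y)) x‖ₑ ^ p =
      ∫⁻ x in O, ‖fderiv ℝ (fun y => min (u y) (v y)) x‖ₑ ^ p := by
    rw [hO'def, refl_lintegral a hν]
    refine setLIntegral_congr_fun hO.measurableSet fun x _ => ?_
    rw [← fderiv_refl a hν (fun y => min (u y) (v y)) x]
    have : (fun z => min (u (refl a ν z)) (v (refl a ν z))) = fun y => min (u y) (v y) := by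
      funext z
      simp only [hvdef, refl_refl a hν]
      exact min_comm _ _
    rw [this]
  have e4 : ∫⁻ x in O', ‖fderiv ℝ u x‖ₑ ^ p = ∫⁻ x in O, ‖fderiv ℝ v x‖ₑ ^ p := by
    rw [hO'def, refl_lintegral a hν]
    refine setLIntegral_congr_fun hO.measurableSet fun x _ => ?_
    rw [← fderiv_refl a hν u x]
  rw [e1, e2, e3, e4, ← lintegral_add_left (hmeas _), ← lintegral_add_left (hmeas _)]
  refine le_of_eq (lintegral_congr_ae ?_)
  exact ae_restrict_of_ae (h2 n p u v ⟨C, hu⟩ ⟨C, hv⟩)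

end Pool.Agent.Helper67.RQ
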